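import Mathlib
import Pool.Agent.MP_9e8696_an.H12.Poincare

/-!
Upper moment bounds for linear and quadratic forms under an Ising measure of small norm.
-/

open Finset

namespace AABml.H78

open Pool.Agent.MP_9e8696_an.H12

variable {ι : Type*} [Fintype ι] [DecidableEq ι]
variable {J : ι → ι → ℝ} {d : ℝ} {p : (ι → Bool) → ℝ}

theorem ex_mono (hp : Gibbs J p) {f g : (ι → Bool) → ℝ} (h : ∀ x, f x ≤ g x) :
    Ex p f ≤ Ex p g :=
  Finset.sum_le_sum fun x _ => mul_le_mul_of_nonneg_left (h x) (hp.pos x).le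

theorem ex_nonneg (hp : Gibbs J p) {f : (ι → Bool) → ℝ} (h : ∀ x, 0 ≤ f x) : 0 ≤ Ex p f :=
  Finset.sum_nonneg fun x _ => mul_nonneg (hp.pos x).le (h x)

theorem ex_add (p : (ι → Bool) → ℝ) (f g : (ι → Bool) → ℝ) :
    Ex p (fun x => f x + g x) = Ex p f + Ex p g := by
  simp only [Ex, mul_add, Finset.sum_add_distrib]

theorem ex_sub (p : (ι → Bool) → ℝ) (f g : (ι → Bool) → ℝ) :
    Ex p (fun x => f x - g x) = Ex p f - Ex p g := by
  simp only [Ex, mul_sub, Finset.sum_sub_distrib]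

theorem ex_mul (p : (ι → Bool) → ℝ) (c : ℝ) (f : (ι → Bool) → ℝ) :
    Ex p (fun x => c * f x) = c * Ex p f := by
  simp only [Ex, Finset.mul_sum]
  exact Finset.sum_congr rfl fun x _ => by ring

theorem ex_const (hp : Gibbs J p) (c : ℝ) : Ex p (fun _ => c) = c := by
  simp only [Ex, ← Finset.sum_mul, hp.sum, one_mul]

theorem ex_sum {κ : Type*} (s : Finset κ) (p : (ι → Bool) → ℝ) (f : κ → (ι → Bool) → ℝ) :
    Ex p (fun x => ∑ k ∈ s, f k x) = ∑ k ∈ s, Ex p (f k) := by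
  simp only [Ex, Finset.mul_sum]
  exact Finset.sum_comm

/-- Cauchy-Schwarz for the expectation. -/
theorem ex_cs (hp : Gibbs J p) (f g : (ι → Bool) → ℝ) :
    Ex p (fun x => f x * g x) ^ 2 ≤ Ex p (fun x => f x ^ 2) * Ex p (fun x => g x ^ 2) := by
  apply Finset.sum_sq_le_sum_mul_sum_of_sq_le_mul
  · intro x _; have := hp.pos x; positivity
  · intro x _; have := hp.pos x; positivity
  · intro x _; apply le_of_eq; ring

omit [Fintype ι] in
theorem dd_sq_fun (i : ι) (f : (ι → Bool) → ℝ) (x : ι → Bool) :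
    dd i (fun x => f x ^ 2) x ^ 2 ≤ 8 * (dd i f x ^ 2 * f x ^ 2) + 8 * dd i f x ^ 4 := by
  have h1 := fl_eq_dd i f x
  have h2 := sg_mul_self (x i)
  have h3 : dd i (fun x => f x ^ 2) x = 2 * dd i f x * (f x - sg (x i) * dd i f x) := by
    have : dd i (fun x => f x ^ 2) x = sg (x i) * (f x ^ 2 - f (fl x i) ^ 2) / 2 := rfl
    rw [this, h1]
    linear_combination (2 * dd i f x * f x - 2 * sg (x i) * dd i f x ^ 2) * h2
  have h4 : (f x - sg (x i) * dd i f x) ^ 2 ≤ 2 * f x ^ 2 + 2 * dd i f x ^ 2 := by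
    have e : (sg (x i) * dd i f x) ^ 2 = dd i f x ^ 2 := by rw [mul_pow, sg_sq, one_mul]
    nlinarith [sq_nonneg (f x + sg (x i) * dd i f x)]
  rw [h3]
  have := mul_le_mul_of_nonneg_left h4 (sq_nonneg (dd i f x))
  nlinarith

theorem gam_sq_fun (f : (ι → Bool) → ℝ) (x : ι → Bool) :
    ∑ i, dd i (fun x => f x ^ 2) x ^ 2 ≤
      8 * ((∑ i, dd i f x ^ 2) * f x ^ 2) + 8 * (∑ i, dd i f x ^ 2) ^ 2 := by
  have h1 : ∑ i, dd i f x ^ 4 ≤ (∑ i, dd i f x ^ 2) ^ 2 := by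
    rw [sq, Finset.sum_mul]
    apply Finset.sum_le_sum; intro i _
    have : dd i f x ^ 2 ≤ ∑ j, dd j f x ^ 2 :=
      Finset.single_le_sum (f := fun j => dd j f x ^ 2) (fun j _ => sq_nonneg _)
        (Finset.mem_univ i)
    have := mul_le_mul_of_nonneg_left this (sq_nonneg (dd i f x))
    nlinarith
  have h2 : ∑ i, dd i (fun x => f x ^ 2) x ^ 2 ≤
      ∑ i, (8 * (dd i f x ^ 2 * f x ^ 2) + 8 * dd i f x ^ 4) :=
    Finset.sum_le_sum fun i _ => dd_sq_fun i f x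
  rw [Finset.sum_add_distrib, ← Finset.mul_sum, ← Finset.mul_sum, ← Finset.sum_mul] at h2
  linarith

/-- Fourth moment from the Poincare inequality. -/
theorem four (hJ : Small J d) (hd : d ≤ 1 / 4) (hp : Gibbs J p) (f : (ι → Bool) → ℝ) :
    Ex p (fun x => f x ^ 4) ≤ 2 * Ex p (fun x => f x ^ 2) ^ 2 +
      288 * Ex p (fun x => (∑ i, dd i f x ^ 2) ^ 2) := by
  have h := poincare hJ hd hp (fun x => f x ^ 2)
  rw [← ex_sum] at h
  have e : (fun x => (f x ^ 2) ^ 2) = fun x => f x ^ 4 := by funext x; ring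
  rw [e] at h
  have h2 : Ex p (fun x => ∑ i, dd i (fun x => f x ^ 2) x ^ 2) ≤
      Ex p (fun x => (1 / 4) * f x ^ 4 + 72 * (∑ i, dd i f x ^ 2) ^ 2) := by
    apply ex_mono hp; intro x
    refine (gam_sq_fun f x).trans ?_
    nlinarith [sq_nonneg (f x ^ 2 - 16 * ∑ i, dd i f x ^ 2)]
  rw [ex_add, ex_mul, ex_mul] at h2
  linarith

theorem lin_mean (hp : Gibbs J p) (u : ι → ℝ) : Ex p (fun x => ∑ i, u i * sg (x i)) = 0 := by
  have h := sum_neg (fun x : ι → Bool => p x * ∑ i, u i * sg (x i))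
  simp only [hp.neg, sg_not, mul_neg, Finset.sum_neg_distrib] at h
  unfold Ex
  linarith

theorem lin_two (hJ : Small J d) (hd : d ≤ 1 / 4) (hp : Gibbs J p) (u : ι → ℝ) :
    Ex p (fun x => (∑ i, u i * sg (x i)) ^ 2) ≤ 2 * ∑ i, u i ^ 2 := by
  have h := poincare hJ hd hp (fun x => ∑ i, u i * sg (x i))
  simp only [dd_lin, ex_const hp, lin_mean hp] at h
  linarith

theorem lin_four (hJ : Small J d) (hd : d ≤ 1 / 4) (hp : Gibbs J p) (u : ι → ℝ) :
    Ex p (fun x => (∑ i, u i * sg (x i)) ^ 4) ≤ 296 * (∑ i, u i ^ 2) ^ 2 := by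
  have h := four hJ hd hp (fun x => ∑ i, u i * sg (x i))
  simp only [dd_lin, ex_const hp] at h
  have h2 := lin_two hJ hd hp u
  have h0 : 0 ≤ Ex p (fun x => (∑ i, u i * sg (x i)) ^ 2) := ex_nonneg hp fun x => sq_nonneg _
  have h3 := pow_le_pow_left₀ h0 h2 2
  nlinarith

theorem lin_eight (hJ : Small J d) (hd : d ≤ 1 / 4) (hp : Gibbs J p) (u : ι → ℝ) :
    Ex p (fun x => (∑ i, u i * sg (x i)) ^ 8) ≤ 11123840 * (∑ i, u i ^ 2) ^ 4 := by
  have h := four hJ hd hp (fun x => (∑ i, u i * sg (x i)) ^ 2)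
  set N := ∑ i, u i ^ 2 with hN
  have N0 : 0 ≤ N := Finset.sum_nonneg fun i _ => sq_nonneg _
  have e1 : (fun x : ι → Bool => ((∑ i, u i * sg (x i)) ^ 2) ^ 4) =
      fun x => (∑ i, u i * sg (x i)) ^ 8 := by funext x; ring
  have e2 : (fun x : ι → Bool => ((∑ i, u i * sg (x i)) ^ 2) ^ 2) =
      fun x => (∑ i, u i * sg (x i)) ^ 4 := by funext x; ring
  rw [e1, e2] at h
  have h4 := lin_four hJ hd hp u
  rw [← hN] at h4
  have h0 : 0 ≤ Ex p (fun x => (∑ i, u i * sg (x i)) ^ 4) := ex_nonneg hp fun x => by positivity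
  have h5 := pow_le_pow_left₀ h0 h4 2
  have h6 : Ex p (fun x => (∑ i, dd i (fun x => (∑ i, u i * sg (x i)) ^ 2) x ^ 2) ^ 2) ≤
      Ex p (fun x => 128 * N ^ 2 * (∑ i, u i * sg (x i)) ^ 4 + 128 * N ^ 4) := by
    apply ex_mono hp; intro x
    have g := gam_sq_fun (fun x => ∑ i, u i * sg (x i)) x
    simp only [dd_lin] at g
    rw [← hN] at g
    have g0 : 0 ≤ ∑ i, dd i (fun x => (∑ i, u i * sg (x i)) ^ 2) x ^ 2 :=
      Finset.sum_nonneg fun i _ => sq_nonneg _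
    refine (pow_le_pow_left₀ g0 g 2).trans ?_
    nlinarith [sq_nonneg (N * (∑ i, u i * sg (x i)) ^ 2 - N ^ 2)]
  rw [ex_add, ex_mul, ex_const hp] at h6
  have h7 := mul_le_mul_of_nonneg_left h4 (by positivity : 0 ≤ 128 * N ^ 2)
  nlinarith

theorem lin_two_two (hJ : Small J d) (hd : d ≤ 1 / 4) (hp : Gibbs J p) (u v : ι → ℝ) :
    Ex p (fun x => (∑ i, u i * sg (x i)) ^ 2 * (∑ i, v i * sg (x i)) ^ 2) ≤
      296 * ((∑ i, u i ^ 2) * ∑ i, v i ^ 2) := by
  have h := ex_cs hp (fun x => (∑ i, u i * sg (x i)) ^ 2) (fun x => (∑ i, v i * sg (x i)) ^ 2)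
  have e : ∀ w : ι → ℝ, (fun x : ι → Bool => ((∑ i, w i * sg (x i)) ^ 2) ^ 2) =
      fun x => (∑ i, w i * sg (x i)) ^ 4 := by intro w; funext x; ring
  rw [e, e] at h
  have hu := lin_four hJ hd hp u
  have hv := lin_four hJ hd hp v
  have U0 : 0 ≤ ∑ i, u i ^ 2 := Finset.sum_nonneg fun i _ => sq_nonneg _
  have V0 : 0 ≤ ∑ i, v i ^ 2 := Finset.sum_nonneg fun i _ => sq_nonneg _
  have h0 : 0 ≤ Ex p (fun x => (∑ i, v i * sg (x i)) ^ 4) := ex_nonneg hp fun x => by positivity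
  have h1 := mul_le_mul hu hv h0 (by positivity)
  refine (abs_le_of_sq_le_sq' ?_ (by positivity)).2
  refine (h.trans h1).trans (le_of_eq ?_); ring

/-- The quadratic form of an array. -/
def qf (A : ι → ι → ℝ) (x : ι → Bool) : ℝ := ∑ i, ∑ j, A i j * sg (x i) * sg (x j)

theorem dd_qf (A : ι → ι → ℝ) (hs : ∀ i j, A i j = A j i) (h0 : ∀ i, A i i = 0)
    (x : ι → Bool) (k : ι) : dd k (qf A) x = 2 * ∑ j, A k j * sg (x j) := by
  have e1 : ∀ z : ι → Bool, qf A z = ∑ i, (∑ j, A i j * sg (z j)) * sg (z i) := by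
    intro z; unfold qf
    apply Finset.sum_congr rfl; intro i _
    rw [Finset.sum_mul]; apply Finset.sum_congr rfl; intro j _; ring
  have e2 : qf A (fl x k) = qf A x - 4 * sg (x k) * ∑ j, A k j * sg (x j) := by
    rw [e1, e1]
    simp_rw [lin_fl]
    have e3 : ∑ i, (∑ j, A i j * sg (x j) - 2 * A i k * sg (x k)) * sg (x i) =
        ∑ i, (∑ j, A i j * sg (x j)) * sg (x i) - 2 * sg (x k) * ∑ j, A k j * sg (x j) := by
      rw [Finset.mul_sum, ← Finset.sum_sub_distrib]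
      apply Finset.sum_congr rfl; intro i _; rw [hs i k]; ring
    rw [e3, h0]; ring
  have h2 := sg_mul_self (x k)
  unfold dd
  rw [e2]
  linear_combination (2 * ∑ j, A k j * sg (x j)) * h2

theorem qf_var (hJ : Small J d) (hd : d ≤ 1 / 4) (hp : Gibbs J p)
    (A : ι → ι → ℝ) (hs : ∀ i j, A i j = A j i) (h0 : ∀ i, A i i = 0) :
    Ex p (fun x => qf A x ^ 2) - Ex p (qf A) ^ 2 ≤ 16 * ∑ i, ∑ j, A i j ^ 2 := by
  have h := poincare hJ hd hp (qf A)
  simp only [dd_qf A hs h0] at h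
  have h2 : ∑ i, Ex p (fun x => (2 * ∑ j, A i j * sg (x j)) ^ 2) ≤ ∑ i, 8 * ∑ j, A i j ^ 2 := by
    apply Finset.sum_le_sum; intro i _
    have e : (fun x : ι → Bool => (2 * ∑ j, A i j * sg (x j)) ^ 2) =
        fun x => 4 * (∑ j, A i j * sg (x j)) ^ 2 := by funext x; ring
    rw [e, ex_mul]
    have := lin_two hJ hd hp (A i)
    linarith
  rw [← Finset.mul_sum] at h2
  linarith

theorem ex_center (hp : Gibbs J p) (f : (ι → Bool) → ℝ) :
    Ex p (fun x => (f x - Ex p f) ^ 2) = Ex p (fun x => f x ^ 2) - Ex p f ^ 2 := by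
  have e : (fun x => (f x - Ex p f) ^ 2) =
      fun x => f x ^ 2 + ((-2 * Ex p f) * f x + Ex p f ^ 2) := by funext x; ring
  rw [e, ex_add, ex_add, ex_mul, ex_const hp]
  have : Ex p (fun x => f x) = Ex p f := rfl
  rw [this]; ring

theorem qf_two (hJ : Small J d) (hd : d ≤ 1 / 4) (hp : Gibbs J p)
    (A : ι → ι → ℝ) (hs : ∀ i j, A i j = A j i) (h0 : ∀ i, A i i = 0) :
    Ex p (fun x => (qf A x - Ex p (qf A)) ^ 2) ≤ 16 * ∑ i, ∑ j, A i j ^ 2 := by
  rw [ex_center hp]; exact qf_var hJ hd hp A hs h0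

theorem qf_four (hJ : Small J d) (hd : d ≤ 1 / 4) (hp : Gibbs J p)
    (A : ι → ι → ℝ) (hs : ∀ i j, A i j = A j i) (h0 : ∀ i, A i i = 0) :
    Ex p (fun x => (qf A x - Ex p (qf A)) ^ 4) ≤ 1364480 * (∑ i, ∑ j, A i j ^ 2) ^ 2 := by
  have h := four hJ hd hp (fun x => qf A x - Ex p (qf A))
  have e : ∀ i x, dd i (fun x => qf A x - Ex p (qf A)) x = 2 * ∑ j, A i j * sg (x j) := by
    intro i x; rw [← dd_qf A hs h0]; unfold dd; ring
  simp only [e] at h
  have h2 := qf_two hJ hd hp A hs h0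
  have z2 : 0 ≤ Ex p (fun x => (qf A x - Ex p (qf A)) ^ 2) := ex_nonneg hp fun x => sq_nonneg _
  have h3 := pow_le_pow_left₀ z2 h2 2
  have e2 : (fun x : ι → Bool => (∑ i, (2 * ∑ j, A i j * sg (x j)) ^ 2) ^ 2) =
      fun x => ∑ i, ∑ k, 16 * ((∑ j, A i j * sg (x j)) ^ 2 * (∑ j, A k j * sg (x j)) ^ 2) := by
    funext x
    rw [sq, Finset.sum_mul_sum]
    apply Finset.sum_congr rfl; intro i _
    apply Finset.sum_congr rfl; intro k _; ring
  have h4 : Ex p (fun x : ι → Bool => (∑ i, (2 * ∑ j, A i j * sg (x j)) ^ 2) ^ 2) ≤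
      4736 * (∑ i, ∑ j, A i j ^ 2) ^ 2 := by
    rw [e2, ex_sum, sq, Finset.sum_mul_sum, Finset.mul_sum]
    apply Finset.sum_le_sum; intro i _
    rw [ex_sum, Finset.mul_sum]
    apply Finset.sum_le_sum; intro k _
    rw [ex_mul]
    have := lin_two_two hJ hd hp (A i) (A k)
    linarith
  nlinarith

end AABml.H78
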