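import Mathlib
import Pool.Agent.MP_9e8696_an.H78.Mom
import Pool.Agent.MP_9e8696_an.H82.Iface

/-!
The Gibbs weight of a small positive semidefinite form is an Ising measure of small norm.
-/

open Finset

namespace AABml.H78

open Pool.Agent.MP_9e8696_an

variable {ι : Type} [Fintype ι] [DecidableEq ι]

/-- The off-diagonal part of an array. -/
def od (Q : ι → ι → ℝ) (i j : ι) : ℝ := if i = j then 0 else Q i j

/-- The Ising coupling of the Gibbs weight. -/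
noncomputable def cpl (e : ℝ) (Q : ι → ι → ℝ) (i j : ι) : ℝ := 2 / (1 - e) * od Q i j

/-- The normalised Gibbs weight. -/
noncomputable def pr (e : ℝ) (Q : ι → ι → ℝ) (x : ι → Bool) : ℝ :=
  H82.gw e Q x / ∑ z, H82.gw e Q z

theorem sg68 (b : Bool) : H68.sg b = -H12.sg b := by cases b <;> simp [H68.sg, H12.sg]

omit [DecidableEq ι] in
theorem lf82 (u : ι → ℝ) (x : ι → Bool) : H82.lf u x = -∑ i, u i * H12.sg (x i) := by
  simp only [H82.lf, sg68, mul_neg, Finset.sum_neg_distrib]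

omit [Fintype ι] in
theorem od_symm {Q : ι → ι → ℝ} (hs : ∀ i j, Q i j = Q j i) (i j : ι) : od Q i j = od Q j i := by
  unfold od
  by_cases h : i = j
  · subst h; rfl
  · rw [if_neg h, if_neg (Ne.symm h), hs]

omit [Fintype ι] in
theorem od_diag (Q : ι → ι → ℝ) (i : ι) : od Q i i = 0 := by simp [od]

theorem qf_od (Q : ι → ι → ℝ) (u : ι → ℝ) :
    ∑ i, ∑ j, od Q i j * u i * u j = H82.qf Q u - ∑ i, Q i i * u i ^ 2 := by
  unfold H82.qf
  rw [← Finset.sum_sub_distrib]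
  apply Finset.sum_congr rfl; intro i _
  have : ∀ j, od Q i j * u i * u j = Q i j * u i * u j - if i = j then Q i i * u i ^ 2 else 0 := by
    intro j; unfold od
    by_cases h : i = j
    · subst h; simp; ring
    · simp [h]
  simp_rw [this]
  rw [Finset.sum_sub_distrib]; simp

theorem yq82 (Q : ι → ι → ℝ) (x : ι → Bool) : H82.yq Q x = qf (od Q) x := by
  have h := qf_od Q (fun i => H68.sg (x i))
  have e : ∀ i, H68.sg (x i) ^ 2 = 1 := by intro i; rw [sg68, neg_sq, H12.sg_sq]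
  simp only [e, mul_one] at h
  unfold H82.yq qf
  rw [← h]
  apply Finset.sum_congr rfl; intro i _
  apply Finset.sum_congr rfl; intro j _
  rw [sg68, sg68]; ring

theorem qf_single (Q : ι → ι → ℝ) (i : ι) :
    H82.qf Q (fun k => if k = i then 1 else 0) = Q i i := by
  simp [H82.qf]

theorem diag_nonneg {Q : ι → ι → ℝ} (h0 : ∀ u, 0 ≤ H82.qf Q u) (i : ι) : 0 ≤ Q i i := by
  have := h0 (fun k => if k = i then 1 else 0)
  rwa [qf_single] at this

theorem diag_le {Q : ι → ι → ℝ} {δ : ℝ} (h1 : ∀ u, H82.qf Q u ≤ δ * ∑ i, u i ^ 2) (i : ι) :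
    Q i i ≤ δ := by
  have := h1 (fun k => if k = i then 1 else 0)
  rw [qf_single] at this
  simpa using this

theorem od_abs {Q : ι → ι → ℝ} {δ : ℝ} (h0 : ∀ u, 0 ≤ H82.qf Q u)
    (h1 : ∀ u, H82.qf Q u ≤ δ * ∑ i, u i ^ 2) (u : ι → ℝ) :
    |∑ i, ∑ j, od Q i j * u i * u j| ≤ δ * ∑ i, u i ^ 2 := by
  rw [qf_od]
  have a1 : 0 ≤ ∑ i, Q i i * u i ^ 2 :=
    Finset.sum_nonneg fun i _ => mul_nonneg (diag_nonneg h0 i) (sq_nonneg _)
  have a2 : ∑ i, Q i i * u i ^ 2 ≤ δ * ∑ i, u i ^ 2 := by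
    rw [Finset.mul_sum]
    exact Finset.sum_le_sum fun i _ => mul_le_mul_of_nonneg_right (diag_le h1 i) (sq_nonneg _)
  have := h0 u; have := h1 u
  rw [abs_le]; constructor <;> linarith

theorem small_cpl {Q : ι → ι → ℝ} {δ e : ℝ} (hs : ∀ i j, Q i j = Q j i)
    (h0 : ∀ u, 0 ≤ H82.qf Q u) (h1 : ∀ u, H82.qf Q u ≤ δ * ∑ i, u i ^ 2) (hδ : 0 ≤ δ)
    (he : e ≤ 1 / 2) (he0 : 0 ≤ e) : H12.Small (cpl e Q) (4 * δ) where
  symm := fun i j => by unfold cpl; rw [od_symm hs]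
  diag := fun i => by unfold cpl; rw [od_diag, mul_zero]
  nonneg := by linarith
  quad := fun u => by
    have e1 : ∑ i, ∑ j, cpl e Q i j * u i * u j =
        2 / (1 - e) * ∑ i, ∑ j, od Q i j * u i * u j := by
      simp only [cpl, Finset.mul_sum]
      apply Finset.sum_congr rfl; intro i _
      apply Finset.sum_congr rfl; intro j _; ring
    have hpos : 0 < 1 - e := by linarith
    have h4 : 2 / (1 - e) ≤ 4 := by rw [div_le_iff₀ hpos]; linarith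
    have h2 : 0 ≤ 2 / (1 - e) := by positivity
    rw [e1, abs_mul, abs_of_nonneg h2]
    have := mul_le_mul h4 (od_abs h0 h1 u) (abs_nonneg _) (by norm_num)
    linarith

omit [DecidableEq ι] in
theorem gw_pos (e : ℝ) (Q : ι → ι → ℝ) (x : ι → Bool) : 0 < H82.gw e Q x := Real.exp_pos _

theorem gw_sum_pos (e : ℝ) (Q : ι → ι → ℝ) : 0 < ∑ z, H82.gw e Q z :=
  Finset.sum_pos (fun z _ => gw_pos e Q z) Finset.univ_nonempty

theorem gw_eq (e : ℝ) (Q : ι → ι → ℝ) (x : ι → Bool) :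
    H82.gw e Q x = Real.exp ((qf (od Q) x + ∑ i, Q i i) / (1 - e)) := by
  rw [← yq82]; unfold H82.gw H82.yq; congr 2; ring

theorem gibbs_pr (e : ℝ) {Q : ι → ι → ℝ} (hs : ∀ i j, Q i j = Q j i) :
    H12.Gibbs (cpl e Q) (pr e Q) where
  pos := fun x => div_pos (gw_pos e Q x) (gw_sum_pos e Q)
  sum := by
    unfold pr
    rw [← Finset.sum_div, div_self (gw_sum_pos e Q).ne']
  flip := fun x i => by
    unfold pr
    rw [div_mul_eq_mul_div]
    congr 1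
    rw [gw_eq, gw_eq, ← Real.exp_add]
    congr 1
    have h1 := H12.fl_eq_dd i (qf (od Q)) x
    rw [dd_qf (od Q) (od_symm hs) (od_diag Q)] at h1
    have h2 : H12.hf (cpl e Q) x i = 2 / (1 - e) * ∑ j, od Q i j * H12.sg (x j) := by
      simp only [H12.hf, cpl, Finset.mul_sum]
      apply Finset.sum_congr rfl; intro j _; ring
    rw [h1, h2]; ring
  neg := fun x => by
    unfold pr
    congr 1
    rw [gw_eq, gw_eq]
    congr 3
    simp only [qf, H12.sg_not]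
    apply Finset.sum_congr rfl; intro i _
    apply Finset.sum_congr rfl; intro j _; ring

theorem gE_eq (e : ℝ) (Q : ι → ι → ℝ) (F : (ι → Bool) → ℝ) :
    H82.gE e Q F = H12.Ex (pr e Q) F := by
  unfold H82.gE H12.Ex pr
  rw [Finset.sum_div]
  apply Finset.sum_congr rfl; intro x _; ring

/-- The standing hypotheses on the form `Q`. -/
structure Ok (e δ : ℝ) (Q : ι → ι → ℝ) : Prop where
  symm : ∀ i j, Q i j = Q j i
  lo : ∀ u, 0 ≤ H82.qf Q u
  hi : ∀ u, H82.qf Q u ≤ δ * ∑ i, u i ^ 2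
  d0 : 0 ≤ δ
  d1 : δ ≤ 1 / 16
  e0 : 0 ≤ e
  e1 : e ≤ 1 / 2

theorem Ok.small {e δ : ℝ} {Q : ι → ι → ℝ} (h : Ok e δ Q) : H12.Small (cpl e Q) (4 * δ) :=
  small_cpl h.symm h.lo h.hi h.d0 h.e1 h.e0

theorem Ok.gibbs {e δ : ℝ} {Q : ι → ι → ℝ} (h : Ok e δ Q) : H12.Gibbs (cpl e Q) (pr e Q) :=
  gibbs_pr e h.symm

theorem Ok.le {e δ : ℝ} {Q : ι → ι → ℝ} (h : Ok e δ Q) : 4 * δ ≤ 1 / 4 := by
  have := h.d1; linarith

omit [DecidableEq ι] in
theorem qf_comb (J₀ J₁ : ι → ι → ℝ) (θ : ℝ) (u : ι → ℝ) :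
    H82.qf (fun i j => J₀ i j + θ * J₁ i j) u = H82.qf J₀ u + θ * H82.qf J₁ u := by
  simp only [H82.qf, Finset.mul_sum, ← Finset.sum_add_distrib]
  apply Finset.sum_congr rfl; intro i _
  apply Finset.sum_congr rfl; intro j _; ring

omit [DecidableEq ι] in
/-- The interpolating forms satisfy the standing hypotheses. -/
theorem ok_comb {J₀ J₁ : ι → ι → ℝ} {δ e θ : ℝ}
    (s0 : ∀ i j, J₀ i j = J₀ j i) (s1 : ∀ i j, J₁ i j = J₁ j i)
    (p0 : ∀ u, 0 ≤ H82.qf J₀ u) (p1 : ∀ u, 0 ≤ H82.qf J₁ u)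
    (hi : ∀ u, H82.qf J₀ u + H82.qf J₁ u ≤ δ * ∑ i, u i ^ 2)
    (d0 : 0 ≤ δ) (d1 : δ ≤ 1 / 16) (e0 : 0 ≤ e) (e1 : e ≤ 1 / 2) (t0 : 0 ≤ θ) (t1 : θ ≤ 1) :
    Ok e δ (fun i j => J₀ i j + θ * J₁ i j) where
  symm := fun i j => by rw [s0 i j, s1 i j]
  lo := fun u => by rw [qf_comb]; have := p0 u; have := mul_nonneg t0 (p1 u); linarith
  hi := fun u => by
    rw [qf_comb]; have := hi u; have := mul_le_mul_of_nonneg_right t1 (p1 u); linarith
  d0 := d0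
  d1 := d1
  e0 := e0
  e1 := e1

/-- The weight of the interpolating form is the tilt of the weight of `J₀` by `y`. -/
theorem gE_comb (e θ : ℝ) (J₀ J₁ : ι → ι → ℝ) (F : (ι → Bool) → ℝ) :
    H82.gE e (fun i j => J₀ i j + θ * J₁ i j) F =
      (∑ x, H82.gw e J₀ x * Real.exp (θ / (1 - e) * H82.yq J₁ x) * F x) /
        ∑ x, H82.gw e J₀ x * Real.exp (θ / (1 - e) * H82.yq J₁ x) := by
  have h : ∀ x, H82.gw e (fun i j => J₀ i j + θ * J₁ i j) x =
      Real.exp (θ / (1 - e) * ∑ i, J₁ i i) *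
        (H82.gw e J₀ x * Real.exp (θ / (1 - e) * H82.yq J₁ x)) := by
    intro x
    unfold H82.gw H82.yq
    rw [qf_comb, ← Real.exp_add, ← Real.exp_add]
    congr 1; ring
  unfold H82.gE
  simp_rw [h, mul_assoc, ← Finset.mul_sum]
  rw [mul_div_mul_left _ _ (Real.exp_pos _).ne']

variable {e δ : ℝ} {Q : ι → ι → ℝ}

theorem g_lf2 (h : Ok e δ Q) (u : ι → ℝ) :
    H82.gE e Q (fun x => H82.lf u x ^ 2) ≤ 2 * ∑ i, u i ^ 2 := by
  rw [gE_eq]; simp only [lf82, neg_sq]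
  exact lin_two h.small h.le h.gibbs u

theorem g_lf4 (h : Ok e δ Q) (u : ι → ℝ) :
    H82.gE e Q (fun x => H82.lf u x ^ 4) ≤ 296 * (∑ i, u i ^ 2) ^ 2 := by
  rw [gE_eq]; simp only [lf82, Even.neg_pow (by norm_num : Even 4)]
  exact lin_four h.small h.le h.gibbs u

theorem g_lf8 (h : Ok e δ Q) (u : ι → ℝ) :
    H82.gE e Q (fun x => H82.lf u x ^ 8) ≤ 11123840 * (∑ i, u i ^ 2) ^ 4 := by
  rw [gE_eq]; simp only [lf82, Even.neg_pow (by norm_num : Even 8)]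
  exact lin_eight h.small h.le h.gibbs u

theorem g_lf22 (h : Ok e δ Q) (u v : ι → ℝ) :
    H82.gE e Q (fun x => H82.lf u x ^ 2 * H82.lf v x ^ 2) ≤
      296 * ((∑ i, u i ^ 2) * ∑ i, v i ^ 2) := by
  rw [gE_eq]; simp only [lf82, neg_sq]
  exact lin_two_two h.small h.le h.gibbs u v

theorem g_yq2 (h : Ok e δ Q) (A : ι → ι → ℝ) (hs : ∀ i j, A i j = A j i) :
    H82.gE e Q (fun x => (H82.yq A x - H82.gE e Q (H82.yq A)) ^ 2) ≤
      16 * ∑ i, ∑ j, od A i j ^ 2 := by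
  have e1 : H82.yq A = qf (od A) := funext (yq82 A)
  rw [gE_eq, gE_eq, e1]
  exact qf_two h.small h.le h.gibbs (od A) (od_symm hs) (od_diag A)

theorem g_yq4 (h : Ok e δ Q) (A : ι → ι → ℝ) (hs : ∀ i j, A i j = A j i) :
    H82.gE e Q (fun x => (H82.yq A x - H82.gE e Q (H82.yq A)) ^ 4) ≤
      1364480 * (∑ i, ∑ j, od A i j ^ 2) ^ 2 := by
  have e1 : H82.yq A = qf (od A) := funext (yq82 A)
  rw [gE_eq, gE_eq, e1]
  exact qf_four h.small h.le h.gibbs (od A) (od_symm hs) (od_diag A)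

end AABml.H78
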