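import Mathlib

/-!
Saturation of a positive semidefinite sum of rank one matrices.
-/

open Finset

namespace AABml.H78

variable {ι τ : Type*} [Fintype ι] [DecidableEq ι] [Fintype τ] [DecidableEq τ]

/-- Orthogonal diagonalisation of a real symmetric array, in coordinates. -/
theorem diag_exists (P : ι → ι → ℝ) (hP : ∀ i j, P i j = P j i) :
    ∃ (U : ι → ι → ℝ) (μ : ι → ℝ),
      (∀ a a', ∑ i, U i a * U i a' = if a = a' then 1 else 0) ∧
      (∀ i j, ∑ a, U i a * U j a = if i = j then 1 else 0) ∧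
      (∀ i a, ∑ j, P i j * U j a = μ a * U i a) := by
  have hA : (Matrix.of P).IsHermitian := by
    ext i j
    simp [Matrix.conjTranspose_apply, hP i j]
  refine ⟨fun i a => (hA.eigenvectorUnitary : Matrix ι ι ℝ) i a, hA.eigenvalues, ?_, ?_, ?_⟩
  · intro a a'
    have h := congrFun (congrFun (Unitary.coe_star_mul_self hA.eigenvectorUnitary) a) a'
    simpa [Matrix.mul_apply, Matrix.one_apply, Matrix.star_apply] using h
  · intro i j
    have h := congrFun (congrFun (Unitary.coe_mul_star_self hA.eigenvectorUnitary) i) j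
    simpa [Matrix.mul_apply, Matrix.one_apply, Matrix.star_apply] using h
  · intro i a
    have h := congrFun (hA.mulVec_eigenvectorBasis a) i
    simpa [Matrix.mulVec, dotProduct] using h

omit [Fintype τ] [DecidableEq τ] in
theorem wcs (C : Finset τ) (p f g : τ → ℝ) (hp : ∀ t, 0 ≤ p t) :
    (∑ t ∈ C, p t * (f t * g t)) ^ 2 ≤ (∑ t ∈ C, p t * f t ^ 2) * (∑ t ∈ C, p t * g t ^ 2) := by
  apply Finset.sum_sq_le_sum_mul_sum_of_sq_le_mul
  · intro t _; have := hp t; positivity
  · intro t _; have := hp t; positivity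
  · intro t _; apply le_of_eq; ring

theorem amgm {x a b : ℝ} (ha : 0 ≤ a) (hb : 0 ≤ b) (h : x ^ 2 ≤ 4 * a * b) : |x| ≤ a + b := by
  apply abs_le_of_sq_le_sq' _ (by linarith) |> abs_le.mpr
  nlinarith [sq_nonneg (a - b)]

section coords
variable (U : ι → ι → ℝ)

/-- Coordinates in the eigenbasis. -/
def co (u : ι → ℝ) (a : ι) : ℝ := ∑ i, U i a * u i

/-- Vector with given coordinates. -/
def ve (g : ι → ℝ) (i : ι) : ℝ := ∑ a, U i a * g a

variable {U}

theorem ve_co (h2 : ∀ i j, ∑ a, U i a * U j a = if i = j then 1 else 0) (u : ι → ℝ) (i : ι) :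
    ve U (co U u) i = u i := by
  unfold ve co
  have : ∀ a, U i a * ∑ j, U j a * u j = ∑ j, U i a * U j a * u j := by
    intro a; rw [Finset.mul_sum]; apply Finset.sum_congr rfl; intro j _; ring
  simp_rw [this]
  rw [Finset.sum_comm]
  simp_rw [← Finset.sum_mul, h2]
  simp

omit [DecidableEq ι] in
theorem dot_ve (g u : ι → ℝ) : ∑ i, ve U g i * u i = ∑ a, g a * co U u a := by
  unfold ve co
  simp_rw [Finset.sum_mul, Finset.mul_sum]
  rw [Finset.sum_comm]
  apply Finset.sum_congr rfl; intro a _
  apply Finset.sum_congr rfl; intro i _; ring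

theorem co_ve (h1 : ∀ a a', ∑ i, U i a * U i a' = if a = a' then 1 else 0) (g : ι → ℝ) (a : ι) :
    co U (ve U g) a = g a := by
  unfold ve co
  have : ∀ i, U i a * ∑ a', U i a' * g a' = ∑ a', U i a * U i a' * g a' := by
    intro i; rw [Finset.mul_sum]; apply Finset.sum_congr rfl; intro j _; ring
  simp_rw [this]
  rw [Finset.sum_comm]
  simp_rw [← Finset.sum_mul, h1]
  simp

theorem norm_ve (h1 : ∀ a a', ∑ i, U i a * U i a' = if a = a' then 1 else 0) (g : ι → ℝ) :
    ∑ i, ve U g i ^ 2 = ∑ a, g a ^ 2 := by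
  have := dot_ve (U := U) g (ve U g)
  simp_rw [co_ve h1] at this
  simpa [sq] using this

theorem norm_co (h1 : ∀ a a', ∑ i, U i a * U i a' = if a = a' then 1 else 0)
    (h2 : ∀ i j, ∑ a, U i a * U j a = if i = j then 1 else 0) (u : ι → ℝ) :
    ∑ a, co U u a ^ 2 = ∑ i, u i ^ 2 := by
  rw [← norm_ve h1]
  simp_rw [ve_co h2]

end coords

omit [DecidableEq τ] in
/-- The weighted Gram identity in eigen-coordinates. -/
theorem gram (p : τ → ℝ) (b : τ → ι → ℝ) (U : ι → ι → ℝ) (μ : ι → ℝ)
    (h1 : ∀ a a', ∑ i, U i a * U i a' = if a = a' then 1 else 0)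
    (h3 : ∀ i a, ∑ j, (∑ t, p t * (b t i * b t j)) * U j a = μ a * U i a) (f g : ι → ℝ) :
    ∑ t, p t * ((∑ a, f a * co U (b t) a) * (∑ a, g a * co U (b t) a)) = ∑ a, μ a * (f a * g a) := by
  have key : ∀ a a', ∑ t, p t * (co U (b t) a * co U (b t) a') = if a = a' then μ a else 0 := by
    intro a a'
    have e1 : ∑ t, p t * (co U (b t) a * co U (b t) a')
        = ∑ i, U i a * ∑ j, (∑ t, p t * (b t i * b t j)) * U j a' := by
      unfold co
      simp_rw [Finset.sum_mul_sum, Finset.mul_sum, Finset.sum_mul, Finset.mul_sum]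
      rw [Finset.sum_comm]
      apply Finset.sum_congr rfl; intro i _
      rw [Finset.sum_comm]
      apply Finset.sum_congr rfl; intro j _
      apply Finset.sum_congr rfl; intro t _; ring
    rw [e1]
    simp_rw [h3]
    have e2 : ∀ i, U i a * (μ a' * U i a') = μ a' * (U i a * U i a') := by intro i; ring
    simp_rw [e2, ← Finset.mul_sum, h1]
    split_ifs with h
    · subst h; simp
    · simp
  have e3 : ∑ t, p t * ((∑ a, f a * co U (b t) a) * (∑ a, g a * co U (b t) a))
      = ∑ a, ∑ a', f a * g a' * ∑ t, p t * (co U (b t) a * co U (b t) a') := by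
    simp_rw [Finset.sum_mul_sum, Finset.mul_sum]
    rw [Finset.sum_comm]
    apply Finset.sum_congr rfl; intro a _
    rw [Finset.sum_comm]
    apply Finset.sum_congr rfl; intro a' _
    apply Finset.sum_congr rfl; intro t _; ring
  rw [e3]
  simp_rw [key]
  apply Finset.sum_congr rfl; intro a _
  simp [mul_comm]

/-- Saturation. `c t` is the damped vector, `B t` the squared length of the part of `b t`
in the overloaded directions. -/
theorem sat (p : τ → ℝ) (hp : ∀ t, 0 ≤ p t) (b : τ → ι → ℝ) (δ : ℝ) (hδ : 0 < δ) :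
    ∃ (c : τ → ι → ℝ) (B : τ → ℝ),
      (∀ u : ι → ℝ, ∑ t, p t * (∑ i, c t i * u i) ^ 2 ≤ δ * ∑ i, u i ^ 2) ∧
      (∀ t, ∑ i, (b t i - c t i) ^ 2 ≤ ∑ i, b t i ^ 2 - ∑ i, c t i ^ 2) ∧
      (∀ t, ∑ i, b t i ^ 2 - ∑ i, c t i ^ 2 ≤ B t) ∧
      (∀ t, 0 ≤ B t ∧ B t ≤ ∑ i, b t i ^ 2) ∧
      (∀ (C : Finset τ) (i : ι) (κ : ℝ), ∑ t, p t * b t i ^ 2 ≤ κ →
        ∑ t ∈ Cᶜ, p t * c t i ^ 2 ≤
          6 * ∑ t ∈ Cᶜ, p t * b t i ^ 2 + 4 * κ / δ * ∑ t ∈ C, p t * B t) ∧
      (∀ (C : Finset τ) (s : τ), ∑ i, b s i ^ 2 ≤ 1 →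
        δ * B s / 2 - 3 * ∑ t ∈ C, p t * B t ≤ ∑ t ∈ Cᶜ, p t * (∑ i, c t i * b s i) ^ 2) := by
  obtain ⟨U, μ, h1, h2, h3⟩ := diag_exists (fun i j => ∑ t, p t * (b t i * b t j))
    (by intro i j; apply Finset.sum_congr rfl; intro t _; ring)
  have G := gram p b U μ h1 h3
  -- damping factors and the indicator of the overloaded directions
  set T : ι → ℝ := fun a => if δ < μ a then Real.sqrt (δ / μ a) else 1 with hT
  set V : ι → ℝ := fun a => if δ < μ a then 1 else 0 with hV
  have T0 : ∀ a, 0 ≤ T a := by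
    intro a; simp only [hT]; split_ifs
    · exact Real.sqrt_nonneg _
    · norm_num
  have T1 : ∀ a, T a ≤ 1 := by
    intro a; simp only [hT]; split_ifs with h
    · exact Real.sqrt_le_one.mpr ((div_le_one (by linarith)).mpr h.le)
    · norm_num
  have TV : ∀ a, μ a * (T a * V a) ^ 2 = δ * V a := by
    intro a; simp only [hT, hV]; split_ifs with h
    · have hm : 0 < μ a := by linarith
      rw [mul_one, Real.sq_sqrt (by positivity)]; field_simp
    · simp
  have TW : ∀ a, T a * (1 - V a) = 1 - V a := by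
    intro a; simp only [hT, hV]; split_ifs <;> simp
  have VV : ∀ a, V a * V a = V a := by
    intro a; simp only [hV]; split_ifs <;> simp
  have V0 : ∀ a, 0 ≤ V a := by
    intro a; simp only [hV]; split_ifs <;> norm_num
  have V1 : ∀ a, V a ≤ 1 := by
    intro a; simp only [hV]; split_ifs <;> norm_num
  have mV : ∀ a, δ * V a ≤ μ a * V a := by
    intro a; simp only [hV]; split_ifs with h
    · linarith
    · simp
  have mW : ∀ a, μ a * (1 - V a) ≤ δ * (1 - V a) := by
    intro a; simp only [hV]; split_ifs with h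
    · simp
    · simp only [sub_zero, mul_one]; linarith
  have mT : ∀ a, μ a * T a ^ 2 ≤ δ := by
    intro a
    have e : μ a * T a ^ 2 = μ a * (T a * V a) ^ 2 + μ a * (1 - V a) := by
      have e1 : T a = T a * V a + (1 - V a) := by rw [← TW a]; ring
      have e2 : T a * V a * (1 - V a) = 0 := by
        have : T a * V a * (1 - V a) = T a * (V a - V a * V a) := by ring
        rw [this, VV]; ring
      have e3 : (1 - V a) ^ 2 = 1 - V a := by
        have : (1 - V a) ^ 2 = 1 - 2 * V a + V a * V a := by ring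
        rw [this, VV]; ring
      calc μ a * T a ^ 2 = μ a * (T a * V a + (1 - V a)) ^ 2 := by rw [← e1]
        _ = μ a * (T a * V a) ^ 2 + 2 * μ a * (T a * V a * (1 - V a)) + μ a * (1 - V a) ^ 2 := by
          ring
        _ = _ := by rw [e2, e3]; ring
    rw [e, TV]; have := mW a; linarith
  set β : τ → ι → ℝ := fun t => co U (b t) with hβ
  have nb : ∀ t, ∑ i, b t i ^ 2 = ∑ a, β t a ^ 2 := fun t => (norm_co h1 h2 (b t)).symm
  have bv : ∀ t i, b t i = ∑ a, U i a * β t a := fun t i => (ve_co h2 (b t) i).symm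
  have B0 : ∀ t, 0 ≤ ∑ a, V a * β t a ^ 2 := fun t =>
    Finset.sum_nonneg fun a _ => mul_nonneg (V0 a) (sq_nonneg _)
  have B1 : ∀ t, ∑ a, V a * β t a ^ 2 ≤ ∑ i, b t i ^ 2 := by
    intro t; rw [nb]
    apply Finset.sum_le_sum; intro a _
    have := V1 a; have := sq_nonneg (β t a); nlinarith
  -- Cauchy-Schwarz on the overloaded directions
  have CSV : ∀ (f g : ι → ℝ), (∑ a, V a * (f a * g a)) ^ 2 ≤
      (∑ a, V a * f a ^ 2) * (∑ a, V a * g a ^ 2) := fun f g => wcs Finset.univ V f g V0
  refine ⟨fun t => ve U (fun a => T a * β t a), fun t => ∑ a, V a * β t a ^ 2,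
    ?_, ?_, ?_, fun t => ⟨B0 t, B1 t⟩, ?_, ?_⟩
  · intro u
    have e : ∀ t, (∑ i, ve U (fun a => T a * β t a) i * u i) ^ 2 =
        (∑ a, (T a * co U u a) * co U (b t) a) * (∑ a, (T a * co U u a) * co U (b t) a) := by
      intro t; rw [dot_ve, sq]
      congr 1 <;> (apply Finset.sum_congr rfl; intro a _; simp only [hβ]; ring)
    simp_rw [e]
    rw [G, ← norm_co h1 h2 u, Finset.mul_sum]
    apply Finset.sum_le_sum; intro a _
    have := mT a; have := sq_nonneg (co U u a); nlinarith
  · intro t
    have e : ∀ i, b t i - ve U (fun a => T a * β t a) i = ve U (fun a => (1 - T a) * β t a) i := by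
      intro i; rw [bv t i]; unfold ve; rw [← Finset.sum_sub_distrib]
      apply Finset.sum_congr rfl; intro a _; ring
    simp_rw [e]
    rw [norm_ve h1, norm_ve h1, nb, ← Finset.sum_sub_distrib]
    apply Finset.sum_le_sum; intro a _
    have h0 := T0 a; have h1' := T1 a; have h2' := sq_nonneg (β t a)
    have : 0 ≤ (T a * (1 - T a)) * β t a ^ 2 := mul_nonneg (mul_nonneg h0 (by linarith)) h2'
    nlinarith
  · intro t
    rw [norm_ve h1, nb, ← Finset.sum_sub_distrib]
    apply Finset.sum_le_sum; intro a _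
    have h2' := sq_nonneg (β t a)
    by_cases h : δ < μ a
    · have hv : V a = 1 := by simp [hV, h]
      rw [hv]; have := sq_nonneg (T a * β t a); linarith
    · have hv : V a = 0 := by simp [hV, h]
      have ht : T a = 1 := by simp [hT, h]
      rw [hv, ht]; simp
  · intro C i κ hκ
    set A : ℝ := ∑ a, μ a * (V a * U i a ^ 2) with hA
    set m : τ → ℝ := fun t => ∑ a, (V a * U i a) * β t a with hm
    set r : τ → ℝ := fun t => ∑ a, ((1 - T a) * U i a) * β t a with hr
    set N : ℝ := ∑ t ∈ Cᶜ, p t * b t i ^ 2 with hN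
    set E : ℝ := ∑ t ∈ C, p t * ∑ a, V a * β t a ^ 2 with hE
    have E0 : 0 ≤ E := Finset.sum_nonneg fun t _ => mul_nonneg (hp t) (B0 t)
    have hW : δ * ∑ a, V a * U i a ^ 2 ≤ A := by
      rw [Finset.mul_sum]; apply Finset.sum_le_sum; intro a _
      have := mV a; have := sq_nonneg (U i a); nlinarith
    have W0 : 0 ≤ ∑ a, V a * U i a ^ 2 :=
      Finset.sum_nonneg fun a _ => mul_nonneg (V0 a) (sq_nonneg _)
    have A0 : 0 ≤ A := le_trans (mul_nonneg hδ.le W0) hW
    have κ0 : 0 ≤ κ := le_trans (Finset.sum_nonneg fun t _ => mul_nonneg (hp t) (sq_nonneg _)) hκ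
    have gm : ∑ t, p t * (m t * m t) = A := by
      have := G (fun a => V a * U i a) (fun a => V a * U i a)
      rw [hA]; refine this.trans ?_
      apply Finset.sum_congr rfl; intro a _
      have : V a * U i a * (V a * U i a) = V a * V a * U i a ^ 2 := by ring
      rw [this, VV]
    have gbm : ∑ t, p t * (b t i * m t) = A := by
      have := G (fun a => U i a) (fun a => V a * U i a)
      rw [hA]
      have e : ∀ t, b t i * m t = (∑ a, U i a * co U (b t) a) *
          (∑ a, V a * U i a * co U (b t) a) := by intro t; rw [bv t i]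
      simp_rw [e]; refine this.trans ?_
      apply Finset.sum_congr rfl; intro a _; ring
    have gr : ∑ t, p t * (r t * r t) ≤ A := by
      have := G (fun a => (1 - T a) * U i a) (fun a => (1 - T a) * U i a)
      rw [hA]; refine this.le.trans ?_
      apply Finset.sum_le_sum; intro a _
      by_cases h : δ < μ a
      · have hv : V a = 1 := by simp [hV, h]
        have h0 := T0 a; have h1' := T1 a
        have hm0 : 0 ≤ μ a := by linarith
        rw [hv]
        apply mul_le_mul_of_nonneg_left _ hm0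
        have : 0 ≤ (T a * (2 - T a)) * U i a ^ 2 :=
          mul_nonneg (mul_nonneg h0 (by linarith)) (sq_nonneg _)
        nlinarith
      · have hv : V a = 0 := by simp [hV, h]
        have ht : T a = 1 := by simp [hT, h]
        rw [hv, ht]; simp
    have mle : ∀ t, δ * m t ^ 2 ≤ A * ∑ a, V a * β t a ^ 2 := by
      intro t
      have h := CSV (fun a => U i a) (β t)
      have e : m t = ∑ a, V a * (U i a * β t a) := by
        simp only [hm]; apply Finset.sum_congr rfl; intro a _; ring
      rw [e]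
      have := B0 t
      calc δ * (∑ a, V a * (U i a * β t a)) ^ 2
          ≤ δ * ((∑ a, V a * U i a ^ 2) * (∑ a, V a * β t a ^ 2)) :=
            mul_le_mul_of_nonneg_left h hδ.le
        _ = (δ * ∑ a, V a * U i a ^ 2) * (∑ a, V a * β t a ^ 2) := by ring
        _ ≤ _ := mul_le_mul_of_nonneg_right hW this
    have hc1 : ∑ t ∈ C, p t * b t i ^ 2 ≤ κ :=
      le_trans (Finset.sum_le_sum_of_subset_of_nonneg (Finset.subset_univ C)
        fun t _ _ => mul_nonneg (hp t) (sq_nonneg _)) hκ
    have hc2 : ∑ t ∈ C, p t * m t ^ 2 ≤ A * E / δ := by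
      rw [le_div_iff₀ hδ, Finset.sum_mul, hE, Finset.mul_sum]
      apply Finset.sum_le_sum; intro t _
      have := mul_le_mul_of_nonneg_left (mle t) (hp t)
      nlinarith
    have hc3 : |∑ t ∈ C, p t * (b t i * m t)| ≤ A / 4 + κ * E / δ := by
      apply amgm (by positivity) (by positivity)
      refine (wcs C p (fun t => b t i) m hp).trans ?_
      have := mul_le_mul hc1 hc2
        (Finset.sum_nonneg fun t _ => mul_nonneg (hp t) (sq_nonneg _)) κ0
      refine this.trans (le_of_eq ?_); ring
    have hn1 : ∑ t ∈ Cᶜ, p t * (b t i * m t) ≤ N + A / 4 := by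
      have h4 : ∑ t ∈ Cᶜ, p t * (m t * m t) ≤ A := by
        rw [← gm]
        exact Finset.sum_le_sum_of_subset_of_nonneg (Finset.subset_univ _)
          fun t _ _ => mul_nonneg (hp t) (mul_self_nonneg _)
      have h5 : ∑ t ∈ Cᶜ, p t * (b t i * m t) ≤
          ∑ t ∈ Cᶜ, (p t * b t i ^ 2 + p t * (m t * m t) / 4) := by
        apply Finset.sum_le_sum; intro t _
        have := mul_nonneg (hp t) (sq_nonneg (b t i - m t / 2))
        nlinarith
      rw [Finset.sum_add_distrib, ← Finset.sum_div] at h5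
      linarith
    have hA2 : A ≤ 2 * N + 2 * (κ * E / δ) := by
      have := Finset.sum_add_sum_compl C (fun t => p t * (b t i * m t))
      have := (abs_le.mp hc3).2
      linarith
    have hcr : ∀ t, ve U (fun a => T a * β t a) i = b t i - r t := by
      intro t; rw [bv t i]; unfold ve; simp only [hr]; rw [← Finset.sum_sub_distrib]
      apply Finset.sum_congr rfl; intro a _; ring
    have h6 : ∑ t ∈ Cᶜ, p t * (r t * r t) ≤ A :=
      le_trans (Finset.sum_le_sum_of_subset_of_nonneg (Finset.subset_univ _)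
        fun t _ _ => mul_nonneg (hp t) (mul_self_nonneg _)) gr
    have h7 : ∑ t ∈ Cᶜ, p t * ve U (fun a => T a * β t a) i ^ 2 ≤
        ∑ t ∈ Cᶜ, (2 * (p t * b t i ^ 2) + 2 * (p t * (r t * r t))) := by
      apply Finset.sum_le_sum; intro t _
      rw [hcr]
      have := mul_nonneg (hp t) (sq_nonneg (b t i + r t))
      nlinarith
    rw [Finset.sum_add_distrib, ← Finset.mul_sum, ← Finset.mul_sum] at h7
    have e : 4 * κ / δ * E = 4 * (κ * E / δ) := by ring
    rw [e]; linarith
  · intro C s hs
    set u : τ → ℝ := fun t => ∑ a, (T a * V a * β s a) * β t a with hu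
    set z : τ → ℝ := fun t => ∑ a, ((1 - V a) * β s a) * β t a with hz
    set E : ℝ := ∑ t ∈ C, p t * ∑ a, V a * β t a ^ 2 with hE
    set Bs : ℝ := ∑ a, V a * β s a ^ 2 with hBs
    have E0 : 0 ≤ E := Finset.sum_nonneg fun t _ => mul_nonneg (hp t) (B0 t)
    have Bs0 : 0 ≤ Bs := B0 s
    have Bs1 : Bs ≤ 1 := (B1 s).trans hs
    have split : ∀ t, ∑ i, ve U (fun a => T a * β t a) i * b s i = u t + z t := by
      intro t; rw [dot_ve]; simp only [hu, hz]; rw [← Finset.sum_add_distrib]
      apply Finset.sum_congr rfl; intro a _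
      have e1 : T a = T a * V a + (1 - V a) := by rw [← TW a]; ring
      calc T a * β t a * co U (b s) a = (T a * V a + (1 - V a)) * β t a * β s a := by rw [← e1]
        _ = _ := by ring
    have guu : ∑ t, p t * (u t * u t) = δ * Bs := by
      refine (G (fun a => T a * V a * β s a) (fun a => T a * V a * β s a)).trans ?_
      rw [hBs, Finset.mul_sum]
      apply Finset.sum_congr rfl; intro a _
      calc μ a * (T a * V a * β s a * (T a * V a * β s a))
          = (μ a * (T a * V a) ^ 2) * β s a ^ 2 := by ring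
        _ = _ := by rw [TV]; ring
    have guz : ∑ t, p t * (u t * z t) = 0 := by
      refine (G (fun a => T a * V a * β s a) (fun a => (1 - V a) * β s a)).trans ?_
      apply Finset.sum_eq_zero; intro a _
      calc μ a * (T a * V a * β s a * ((1 - V a) * β s a))
          = μ a * T a * β s a ^ 2 * (V a - V a * V a) := by ring
        _ = 0 := by rw [VV]; ring
    have gzz : ∑ t, p t * (z t * z t) ≤ δ := by
      refine (G (fun a => (1 - V a) * β s a) (fun a => (1 - V a) * β s a)).le.trans ?_
      have h8 : ∑ a, μ a * ((1 - V a) * β s a * ((1 - V a) * β s a)) ≤ ∑ a, δ * β s a ^ 2 := by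
        apply Finset.sum_le_sum; intro a _
        by_cases h : δ < μ a
        · have hv : V a = 1 := by simp [hV, h]
          rw [hv]; have := mul_nonneg hδ.le (sq_nonneg (β s a)); simpa using this
        · have hv : V a = 0 := by simp [hV, h]
          rw [hv]; have := sq_nonneg (β s a); have := not_lt.mp h; nlinarith
      rw [← Finset.mul_sum, ← nb] at h8
      have := mul_le_mul_of_nonneg_left hs hδ.le
      linarith
    have ule : ∀ t, u t ^ 2 ≤ Bs * ∑ a, V a * β t a ^ 2 := by
      intro t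
      have h := CSV (fun a => T a * β s a) (β t)
      have e : u t = ∑ a, V a * (T a * β s a * β t a) := by
        simp only [hu]; apply Finset.sum_congr rfl; intro a _; ring
      rw [e]; refine h.trans (mul_le_mul_of_nonneg_right ?_ (B0 t))
      apply Finset.sum_le_sum; intro a _
      apply mul_le_mul_of_nonneg_left _ (V0 a)
      have h0 := T0 a; have h1' := T1 a
      have : 0 ≤ ((1 - T a) * (1 + T a)) * β s a ^ 2 :=
        mul_nonneg (mul_nonneg (by linarith) (by linarith)) (sq_nonneg _)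
      nlinarith
    have cu : ∑ t ∈ C, p t * u t ^ 2 ≤ Bs * E := by
      rw [hE, Finset.mul_sum]; apply Finset.sum_le_sum; intro t _
      have := mul_le_mul_of_nonneg_left (ule t) (hp t)
      nlinarith
    have cz : ∑ t ∈ C, p t * z t ^ 2 ≤ δ := by
      refine le_trans ?_ gzz
      simp_rw [sq]
      exact Finset.sum_le_sum_of_subset_of_nonneg (Finset.subset_univ _)
        fun t _ _ => mul_nonneg (hp t) (mul_self_nonneg _)
    have cuz : |∑ t ∈ C, p t * (u t * z t)| ≤ δ * Bs / 4 + E := by
      apply amgm (by positivity) E0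
      refine (wcs C p u z hp).trans ?_
      have := mul_le_mul cu cz
        (Finset.sum_nonneg fun t _ => mul_nonneg (hp t) (sq_nonneg _)) (mul_nonneg Bs0 E0)
      refine this.trans (le_of_eq ?_); ring
    have h9 : ∑ t ∈ Cᶜ, (p t * (u t * u t) + 2 * (p t * (u t * z t))) ≤
        ∑ t ∈ Cᶜ, p t * (∑ i, ve U (fun a => T a * β t a) i * b s i) ^ 2 := by
      apply Finset.sum_le_sum; intro t _
      rw [split]
      have := mul_nonneg (hp t) (sq_nonneg (z t))
      nlinarith
    rw [Finset.sum_add_distrib, ← Finset.mul_sum] at h9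
    have s1 := Finset.sum_add_sum_compl C (fun t => p t * (u t * u t))
    have s2 := Finset.sum_add_sum_compl C (fun t => p t * (u t * z t))
    have s3 : ∑ t ∈ C, p t * (u t * u t) ≤ E := by
      have : ∑ t ∈ C, p t * (u t * u t) = ∑ t ∈ C, p t * u t ^ 2 := by simp_rw [sq]
      rw [this]; refine cu.trans ?_; nlinarith
    have := (abs_le.mp cuz).2
    linarith

end AABml.H78
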